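import Pool.Agent.H.MP_99598b_lc.E

/-! The classes `HP(C₀)`, `HPS(C₀)` and `SHPS(C₀)` are decidable. -/

namespace Pool.Agent.Results.MP_99598b_lc.Yes

open Function

/-- A finite (nonempty) semigroup. -/
structure FinSg where
  carrier : Type
  [sg : Semigroup carrier]
  [fin : Finite carrier]
  [ne : Nonempty carrier]

attribute [instance] FinSg.sg FinSg.fin FinSg.ne

/-- Classes of finite semigroups. -/
abbrev Cl : Type 1 := FinSg → Prop

/-- Homomorphic images of members of `C`. -/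
def H (C : Cl) : Cl := fun N => ∃ T, C T ∧ ∃ f : T.carrier →ₙ* N.carrier, Surjective f

/-- Semigroups embeddable into members of `C`. -/
def S (C : Cl) : Cl := fun N => ∃ T, C T ∧ ∃ f : N.carrier →ₙ* T.carrier, Injective f

/-- Direct products of `n + 1 ≥ 1` members of `C`, up to isomorphism. -/
def P (C : Cl) : Cl := fun N => ∃ (n : ℕ) (T : Fin (n + 1) → FinSg), (∀ i, C (T i)) ∧
  Nonempty (N.carrier ≃* ∀ i, (T i).carrier)

/-- Two-sided ideals (nonempty). -/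
def IsIdeal {T : Type} [Mul T] (I : Set T) : Prop :=
  I.Nonempty ∧ ∀ a ∈ I, ∀ b, a * b ∈ I ∧ b * a ∈ I

/-- The finite 0-simple semigroups: there is a zero `z`, some product is nonzero, and the only
ideals are `{z}` and the whole semigroup. -/
def C0 : Cl := fun T => ∃ z : T.carrier, (∀ a, z * a = z ∧ a * z = z) ∧ (∃ a b, a * b ≠ z) ∧
  ∀ I : Set T.carrier, IsIdeal I → I = {z} ∨ I = Set.univ

/-- The multiplication table of `M` for a numbering `e` of its elements. -/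
def table (M : FinSg) {n : ℕ} (e : Fin n ≃ M.carrier) : List (List ℕ) :=
  List.ofFn fun i => List.ofFn fun j => (e.symm (e i * e j) : ℕ)

/-- Some algorithm, given a multiplication table, decides membership in `C`. -/
def Decid (C : Cl) : Prop := ∃ f : List (List ℕ) → Bool, Computable f ∧
  ∀ (M : FinSg) (n : ℕ) (e : Fin n ≃ M.carrier), f (table M e) = true ↔ C M

open Pool.Agent.H.MP_99598b_lc Pool.Agent.H.MP_88bd66_lc

theorem c0_iff (T : FinSg) : C0 T ↔ ZS T.carrier := by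
  refine exists_congr fun z => and_congr_right fun hz => ⟨?_, ?_⟩
  · rintro ⟨⟨a, b, hab⟩, h⟩
    refine ⟨⟨_, hab⟩, fun x hx y => ?_⟩
    have h1 : ∀ x, IsIdeal {y : T.carrier | ∃ c d, y = c * x * d} := by
      intro x
      refine ⟨⟨_, x, x, rfl⟩, ?_⟩
      rintro _ ⟨c, d, rfl⟩ b
      exact ⟨⟨c, d * b, mul_assoc _ _ _⟩, b * c, d, by simp only [mul_assoc]⟩
    rcases h _ (h1 x) with h2 | h2
    · exfalso
      have h3 : IsIdeal {x : T.carrier | ∀ c d, c * x * d = z} := by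
        refine ⟨⟨z, fun c d => by rw [(hz c).2, (hz d).1]⟩, fun x hx b => ⟨fun c d => ?_,
          fun c d => ?_⟩⟩
        · simpa only [mul_assoc] using hx c (b * d)
        · simpa only [mul_assoc] using hx (c * b) d
      have h4 : x ∈ {x : T.carrier | ∀ c d, c * x * d = z} := fun c d =>
        (Set.ext_iff.1 h2 _).1 ⟨c, d, rfl⟩
      have h5 := (h _ h3).resolve_left fun h5 => hx (by rwa [h5] at h4)
      have h6 : IsIdeal {y : T.carrier | ∃ c d, y = c * d} := by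
        refine ⟨⟨_, a, b, rfl⟩, ?_⟩
        rintro _ ⟨c, d, rfl⟩ b
        exact ⟨⟨_, _, rfl⟩, _, _, rfl⟩
      have h7 := (h _ h6).resolve_left fun h7 => hab ((Set.ext_iff.1 h7 _).1 ⟨a, b, rfl⟩)
      obtain ⟨c, d, rfl⟩ := (Set.ext_iff.1 h7 a).2 trivial
      exact hab ((Set.ext_iff.1 h5 d).2 trivial c b)
    · exact (Set.ext_iff.1 h2 y).2 trivial
  · rintro ⟨⟨a, ha⟩, h⟩
    obtain ⟨c, d, h1⟩ := h a ha a
    refine ⟨⟨_, _, h1 ▸ ha⟩, fun I hI => ?_⟩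
    by_cases h2 : ∃ x ∈ I, x ≠ z
    · obtain ⟨x, hx, hx'⟩ := h2
      refine Or.inr (Set.eq_univ_of_forall fun y => ?_)
      obtain ⟨c, d, rfl⟩ := h x hx' y
      exact (hI.2 _ (hI.2 _ hx c).2 d).1
    · push Not at h2
      obtain ⟨x, hx⟩ := hI.1
      exact Or.inl (Set.eq_singleton_iff_unique_mem.2 ⟨h2 x hx ▸ hx, h2⟩)

theorem p_fam {b : ℕ} {Pr : ∀ (V : Type) [Semigroup V], Prop} (F : Fam b Pr) {C : Cl}
    (h : ∀ T : FinSg, Pr T.carrier → C T) (N : FinSg) (ψ : N.carrier ≃* ∀ j, F.V j) : P C N := by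
  obtain ⟨n, hn⟩ := Nat.exists_eq_succ_of_ne_zero (Nat.card_pos (α := F.J)).ne'
  let σ := (Finite.equivFinOfCardEq hn).symm
  exact ⟨n, fun i => ⟨F.V (σ i)⟩, fun i => h _ (F.pr _),
    ⟨ψ.trans ⟨(Equiv.piCongrLeft' F.V σ.symm), fun _ _ => rfl⟩⟩⟩

theorem hb_fam {b : ℕ} {Pr : PC} {C : Cl} (h : ∀ T : FinSg, Pr b T.carrier → C T) (M : FinSg)
    (hM : Hb (Pb Pr) b M.carrier) : H (P C) M := by
  obtain ⟨T, _, _, ⟨F, ⟨ψ⟩⟩, -, f, hf⟩ := hM
  have : Nonempty T := hf.nonempty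
  exact ⟨⟨T⟩, p_fam F h _ ψ, f, hf⟩

theorem fam_hb {b : ℕ} {Pr : PC} {M : Type} [Semigroup M] (F : Fam b (Pr b))
    (π : (∀ j, F.V j) →ₙ* M) (hπ : Surjective π) : Hb (Pb Pr) b M :=
  ⟨_, _, inferInstance, ⟨F, ⟨MulEquiv.refl _⟩⟩, F.cP, π, hπ⟩

theorem sb_s {b : ℕ} (T : FinSg) (h : Sb (fun _ => ZS) b T.carrier) : S C0 T := by
  obtain ⟨U, _, _, h1, -, f, hf⟩ := h
  have : Nonempty U := ⟨f (Classical.arbitrary _)⟩
  exact ⟨⟨U⟩, (c0_iff _).2 h1, f, hf⟩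

theorem nice_s {n : ℕ} (U : Fin n → FinSg) (h : ∀ i, S C0 (U i)) :
    ∃ (zer : ∀ i, (U i).carrier → Prop) (k : ℕ), ∀ i, Nice (zer i) k := by
  choose T hT f hf using h
  choose z hz _ hT using fun i => (c0_iff _).1 (hT i)
  exact ⟨fun i a => f i a = z i, _, fun i => (nice_of_zs (hz i) (hT i)
    (Finset.le_sup (f := fun i => Nat.card (T i).carrier) (Finset.mem_univ i))).comap _ (hf i)⟩

theorem result : Decid (H (P C0)) ∧ Decid (H (P (S C0))) ∧ Decid (S (H (P (S C0)))) := by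
  refine ⟨?_, ?_, ?_⟩
  · obtain ⟨f, hf, h⟩ := dec_zs.pb.hb.fin
    refine ⟨f, hf, fun M n e => (h M.carrier n e).trans
      ⟨hb_fam (fun T => (c0_iff T).2) M, ?_⟩⟩
    rintro ⟨T, ⟨k, U, hU, ⟨ψ⟩⟩, π, hπ⟩
    obtain ⟨F, π', h'⟩ := hp (fun i => (c0_iff _).1 (hU i)) (π.comp ψ.symm.toMulHom)
      (hπ.comp ψ.symm.surjective)
    exact fam_hb (Pr := fun _ => ZS) F π' h'
  · obtain ⟨f, hf, h⟩ := dec_zs.sb.pb.hb.fin
    refine ⟨f, hf, fun M n e => (h M.carrier n e).trans ⟨hb_fam sb_s M, ?_⟩⟩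
    rintro ⟨T, ⟨k, U, hU, ⟨ψ⟩⟩, π, hπ⟩
    obtain ⟨zer, l, hN⟩ := nice_s U hU
    obtain ⟨F, π', h'⟩ := hps hN (π.comp ψ.symm.toMulHom) (hπ.comp ψ.symm.surjective)
    exact fam_hb (Pr := Sb fun _ => ZS) F π' h'
  · obtain ⟨f, hf, h⟩ := dec_zs.sb.pb.hb.sb.fin
    refine ⟨f, hf, fun M n e => (h M.carrier n e).trans ⟨?_, ?_⟩⟩
    · rintro ⟨Q, _, _, h1, -, ι, hι⟩
      have : Nonempty Q := ⟨ι (Classical.arbitrary _)⟩
      exact ⟨⟨Q⟩, hb_fam sb_s ⟨Q⟩ h1, ι, hι⟩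
    · rintro ⟨Q, ⟨T, ⟨k, U, hU, ⟨ψ⟩⟩, π, hπ⟩, ι, hι⟩
      obtain ⟨zer, l, hN⟩ := nice_s U hU
      obtain ⟨F, Q', _, π', ι', h1, h2⟩ := shps hN (π.comp ψ.symm.toMulHom)
        (hπ.comp ψ.symm.surjective) ι hι
      exact ⟨Q', _, Finite.of_surjective π' h1, fam_hb (Pr := Sb fun _ => ZS) F π' h1,
        (Nat.card_le_card_of_surjective π' h1).trans F.cP, ι', h2⟩

end Pool.Agent.Results.MP_99598b_lc.Yes
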